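import Mathlib
import Pool.Agent.Helper49.DW.LGStar

/-!
MP_aa1ab3_an: discreteness of a free group of unitaries is detected by conjugation on any
invariant set over which the group is nowhere free.

Let `U` be a homomorphism of the free group on two generators into the unitary group of `L(G)`
and let `B` be a set of elements of `L(G)` with `U(w) B U(w)⁻¹ ⊆ B` (for instance the Cartan
masa of the hyperfinite factor of type II₁ and a group in its normaliser). Suppose that the
operators `q ∈ B` with `U(x) q ∈ B` for some `x ≠ 1` generate `L(G)` as a right ideal, in the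
two-norm. Then `U` is discrete in the two-norm if and only if already the action by conjugation
on `B` is discrete.
-/

namespace Pool.Agent.Results.MP_aa1ab3_an.ConjugationCriterion

/-- the free group on two generators -/
abbrev F2 := FreeGroup (Fin 2)

/-- the Hilbert space `ℓ²(G)` -/
abbrev Ell (G : Type*) : Type _ := lp (fun _ : G => ℂ) 2

/-- the bounded operators on `ℓ²(G)` -/
abbrev Op (G : Type*) : Type _ := Ell G →L[ℂ] Ell G

/-- `f'` is the right translate `h ↦ f(hg)` of `f` -/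
def IsTranslate {G : Type*} [Group G] (g : G) (f f' : Ell G) : Prop :=
  ∀ h : G, f' h = f (h * g)

/-- the operator `T` lies in the group von Neumann algebra `L(G)`: it commutes with the right
translations of `ℓ²(G)` -/
def InL {G : Type*} [Group G] (T : Op G) : Prop :=
  ∀ (g : G) (f f' : Ell G), IsTranslate g f f' → IsTranslate g (T f) (T f')

/-- `δ` is the vector `δ₁` of `ℓ²(G)` -/
def IsDelta {G : Type*} [Group G] (δ : Ell G) : Prop :=
  δ 1 = 1 ∧ ∀ g : G, g ≠ 1 → δ g = 0

/-- `U` is a homomorphism of the free group into the unitary group of `L(G)` -/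
def IsUnitaryRep {G : Type*} [Group G] (U : F2 → Op G) : Prop :=
  (∀ x, U 1 x = x) ∧ (∀ a b x, U (a * b) x = U a (U b x)) ∧ (∀ a x, ‖U a x‖ = ‖x‖) ∧
    ∀ a, InL (U a)

/-- the unitaries `U(w)`, `w ≠ 1`, are uniformly away from `1` in the two-norm -/
def IsDiscrete {G : Type*} (U : F2 → Op G) (δ : Ell G) : Prop :=
  ∃ ε : ℝ, 0 < ε ∧ ∀ w, w ≠ 1 → ε ≤ ‖U w δ - δ‖

/-- the operator `U(w) f U(w)⁻¹` -/
noncomputable def conj {G : Type*} (U : F2 → Op G) (w : F2) (f : Op G) : Op G :=
  (U w).comp (f.comp (U w⁻¹))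

/-- `B` is a set of elements of `L(G)` which is invariant under conjugation by the `U(w)` -/
def IsInvariant {G : Type*} [Group G] (U : F2 → Op G) (B : Set (Op G)) : Prop :=
  (∀ f ∈ B, InL f) ∧ ∀ w, ∀ f ∈ B, conj U w f ∈ B

/-- `q` and `U(x) q` both lie in `B`, for some `x ≠ 1` -/
def IsSlot {G : Type*} (U : F2 → Op G) (B : Set (Op G)) (q : Op G) : Prop :=
  q ∈ B ∧ ∃ x, x ≠ 1 ∧ (U x).comp q ∈ B

/-- the group is nowhere free over `B`: in the two-norm, `1` is a limit of sums
`q₁ b₁ + … + qₙ bₙ` where `b₁, …, bₙ ∈ L(G)` and each `qᵢ` is as in `IsSlot` -/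
def NowhereFree {G : Type*} [Group G] (U : F2 → Op G) (B : Set (Op G)) (δ : Ell G) : Prop :=
  ∀ ε : ℝ, 0 < ε → ∃ l : List (Op G × Op G),
    (∀ p ∈ l, IsSlot U B p.1 ∧ InL p.2) ∧ ‖δ - (l.map fun p => p.1 (p.2 δ)).sum‖ < ε

/-- the action by conjugation on `B` is discrete for the two-norm: finitely many elements of `B`
are such that each `U(t)`, `t ≠ 1`, moves one of them by at least `ε` -/
def ActsDiscretely {G : Type*} (U : F2 → Op G) (B : Set (Op G)) (δ : Ell G) : Prop :=
  ∃ S : Finset (Op G), (∀ f ∈ S, f ∈ B) ∧ ∃ ε : ℝ, 0 < ε ∧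
    ∀ t, t ≠ 1 → ∃ f ∈ S, ε ≤ ‖conj U t f δ - f δ‖

theorem result {G : Type*} [Group G] (U : F2 → Op G) (hU : IsUnitaryRep U)
    (δ : Ell G) (hδ : IsDelta δ) (B : Set (Op G)) (hB : IsInvariant U B)
    (hfree : NowhereFree U B δ) : IsDiscrete U δ ↔ ActsDiscretely U B δ := by
  classical
  obtain ⟨h1, h2, h3, hL⟩ := hU
  have hone : U 1 = 1 := ContinuousLinearMap.ext h1
  have hmul : ∀ a b, U (a * b) = U a * U b := fun a b => ContinuousLinearMap.ext (h2 a b)
  have hss : ∀ a, star (U a) * U a = 1 := fun a =>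
    (ContinuousLinearMap.norm_map_iff_adjoint_comp_self (U a)).1 (h3 a)
  have hinv : ∀ a, U a * U a⁻¹ = 1 := fun a => by rw [← hmul, mul_inv_cancel, hone]
  have hst : ∀ a, star (U a) = U a⁻¹ := fun a => by
    calc star (U a) = star (U a) * (U a * U a⁻¹) := by rw [hinv, mul_one]
      _ = U a⁻¹ := by rw [← mul_assoc, hss, one_mul]
  let φ : FreeGroup (Fin 2) →* ↥(unitary (Ell G →L[ℂ] Ell G)) :=
    { toFun := fun a => ⟨U a, by
        rw [Unitary.mem_iff]
        exact ⟨hss a, by rw [hst, hinv]⟩⟩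
      map_one' := Subtype.ext hone
      map_mul' := fun a b => Subtype.ext (hmul a b) }
  have e : δ = Helper9.UGap.dl := by
    ext g
    unfold Helper9.UGap.dl
    rw [lp.single_apply]
    by_cases hg : g = 1
    · subst hg; rw [hδ.1]; simp
    · rw [hδ.2 g hg, Pi.single_eq_of_ne hg]
  have hS := Helper9.UGap.std_LG (G := G)
  rw [← e] at hS
  have hInL : ∀ T : Op G, InL T → Helper9.UGap.InL T ∧ Helper9.UGap.InL (star T) :=
    fun T hT => ⟨hT, Helper49.DW.Op.InL_star hT⟩
  have hP : ∀ w, Helper9.UGap.InL (Helper9.UGap.U φ w) ∧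
      Helper9.UGap.InL (star (Helper9.UGap.U φ w)) := fun w => hInL _ (hL w)
  have hBP : ∀ f ∈ B, Helper9.UGap.InL f ∧ Helper9.UGap.InL (star f) :=
    fun f hf => hInL f (hB.1 f hf)
  have hcj : ∀ w (f : Op G), Helper9.UGap.cj φ w f = conj U w f := fun w f => by
    show U w * f * U w⁻¹ = _
    rw [mul_assoc]
    rfl
  have hBc : ∀ w, ∀ f ∈ B, Helper9.UGap.cj φ w f ∈ B := fun w f hf => by
    rw [hcj]
    exact hB.2 w f hf
  constructor
  · rintro ⟨ε, hε, hd⟩
    by_contra hcon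
    have hN : ∀ J : Finset (Op G), ↑J ⊆ B → ∀ ε : ℝ, 0 < ε →
        ∃ t, t ≠ 1 ∧ ∀ f ∈ J, Helper49.DW.Op.bb φ δ t f < ε := by
      intro J hJ η hη
      by_contra hno
      apply hcon
      refine ⟨J, fun f hf => hJ hf, η, hη, fun t ht => ?_⟩
      by_contra hno2
      apply hno
      refine ⟨t, ht, fun f hf => ?_⟩
      by_contra hno3
      apply hno2
      refine ⟨f, hf, ?_⟩
      have := not_lt.1 hno3
      unfold Helper49.DW.Op.bb at this
      rwa [hcj] at this
    obtain ⟨w, hw1, hw⟩ := Helper49.DW.Op.core φ hS hP hBP hBc hN (by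
      intro η hη
      obtain ⟨l, hl, hlε⟩ := hfree η hη
      exact ⟨l, fun p hp => ⟨(hl p hp).1, hInL _ (hl p hp).2⟩, hlε⟩) ε hε
    exact absurd (hd w hw1) (not_le.2 hw)
  · rintro ⟨S, hSB, ε, hε, hd⟩
    set C : ℝ := ∑ f ∈ S, ‖f‖ with hC
    have hC0 : 0 ≤ C := Finset.sum_nonneg fun f _ => norm_nonneg f
    refine ⟨ε / (2 * (C + 1)), by positivity, fun t ht => ?_⟩
    obtain ⟨f, hf, hle⟩ := hd t ht
    have h4 := Helper49.DW.Op.easy φ hS hP t (hBP f (hSB f hf))
    unfold Helper49.DW.Op.bb at h4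
    rw [hcj] at h4
    have h5 : ‖f‖ ≤ C := Finset.single_le_sum (f := fun f => ‖f‖)
      (fun f _ => norm_nonneg f) hf
    have h6 : (0 : ℝ) ≤ ‖U t δ - δ‖ := norm_nonneg _
    have h7 : ε ≤ 2 * ‖f‖ * ‖U t δ - δ‖ := hle.trans h4
    have h8 : 2 * ‖f‖ * ‖U t δ - δ‖ ≤ 2 * (C + 1) * ‖U t δ - δ‖ := by
      gcongr
      linarith
    rw [div_le_iff₀ (by positivity)]
    linarith

end Pool.Agent.Results.MP_aa1ab3_an.ConjugationCriterion
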