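import Pool.Agent.Helper34.FG.Final

/-!
No copy of the free group on two generators among the elements of the full group of a measure
preserving transformation `T` which move only finitely many points of almost every orbit across
the base point, even with phases in the unitary group of a finite dimensional C*-algebra, is
discrete.

`T` is an invertible measure preserving transformation of a probability space `(X, μ)`.  The
generator `i` of the free group acts on `X × unitary B` by
`(x, z) ↦ (T ^ c i x • x, θ i x * z)`: on the base it is an element of the full group of `T`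
with displacement `c i`, and `θ i` is an arbitrary function with values in the unitary group of
`B` (the phase).  For almost every `x` only finitely many of the points `T ^ k x` with `0 ≤ k`
are moved to points `T ^ l x` with `l < 0` or conversely (for instance, `c i` is integrable).
-/

namespace Pool.Agent.Results.MP_aa1ab3_an.FiniteCrossing

open MeasureTheory

theorem result {X B : Type*} [MeasurableSpace X]
    [NormedRing B] [StarRing B] [CStarRing B] [NormedAlgebra ℂ B] [FiniteDimensional ℂ B]
    (μ : Measure X) [IsProbabilityMeasure μ]
    (T : Equiv.Perm X) (hT : MeasurePreserving T μ μ) (hT' : Measurable T.symm)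
    (c : Fin 2 → X → ℤ) (hc : ∀ i, Measurable (c i))
    (hf : ∀ i, ∀ᵐ x ∂μ, {k : ℤ | ¬ (0 ≤ k ↔ 0 ≤ k + c i ((T ^ k) x))}.Finite)
    (θ : Fin 2 → X → unitary B) (ρ : FreeGroup (Fin 2) →* Equiv.Perm (X × unitary B))
    (hρ : ∀ i x z, ρ (FreeGroup.of i) (x, z) = ((T ^ (c i x)) x, θ i x * z)) :
    ∀ ε : ℝ, 0 < ε → ∃ w : FreeGroup (Fin 2), w ≠ 1 ∧
      μ {x | ¬ ∃ a : unitary B, ‖(a : B) - 1‖ < ε ∧ ∀ z, ρ w (x, z) = (x, a * z)}
        < ENNReal.ofReal ε :=
  Helper34.FG.mainV μ T hT hT' c hc hf θ ρ hρ

end Pool.Agent.Results.MP_aa1ab3_an.FiniteCrossing
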