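import Mathlib
import Pool.Agent.Helper9.UGap.LG

/-!
MP_aa1ab3_an: a gap for the traces of the elements of a discrete free subgroup.

Let `G` be any group (for instance the group of finitary permutations of `ℕ`, for which `L(G)` is
the hyperfinite factor of type II₁), let `U` be a homomorphism of the free group on two generators
into the unitary group of `L(G)` whose image is discrete in the `2`-norm, uniformly away from `1`,
and generates a factor. Then every element `U(w)`, `w ≠ 1`, has `|τ(U(w))| ≤ 6/7`.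
-/

namespace Pool.Agent.Results.MP_aa1ab3_an.TraceGap

section Generic

variable {E : Type*} [NormedAddCommGroup E] [InnerProductSpace ℂ E]

/-- `U` is a homomorphism of the free group of rank two into the unitary operators of `E` -/
def IsUnitaryRep (U : FreeGroup (Fin 2) → E →L[ℂ] E) : Prop :=
  (∀ x, U 1 x = x) ∧ (∀ a b x, U (a * b) x = U a (U b x)) ∧ ∀ a x, ‖U a x‖ = ‖x‖

/-- the bounded operators `S` and `T` commute -/
def Commutes (S T : E →L[ℂ] E) : Prop := ∀ x, S (T x) = T (S x)

/-- `T` lies in the commutant of the operators `U(w)` -/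
def InCommutant (U : FreeGroup (Fin 2) → E →L[ℂ] E) (T : E →L[ℂ] E) : Prop :=
  ∀ w, Commutes T (U w)

/-- the von Neumann algebra generated by the unitaries `U(w)` (their bicommutant) is a factor:
each bounded operator that lies both in the commutant and in the bicommutant is a scalar -/
def GeneratesFactor (U : FreeGroup (Fin 2) → E →L[ℂ] E) : Prop :=
  ∀ T : E →L[ℂ] E, InCommutant U T → (∀ S : E →L[ℂ] E, InCommutant U S → Commutes S T) →
    ∃ c : ℂ, ∀ x, T x = c • x

/-- with respect to the vector `δ`, the operators `U(w)`, `w ≠ 1`, are uniformly away from `1` -/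
def IsDiscrete (U : FreeGroup (Fin 2) → E →L[ℂ] E) (δ : E) : Prop :=
  ∃ ε : ℝ, 0 < ε ∧ ∀ w, w ≠ 1 → ε ≤ ‖U w δ - δ‖

end Generic

/-- the Hilbert space `ℓ²(G)` -/
abbrev Ell (G : Type*) : Type _ := lp (fun _ : G => ℂ) 2

/-- `f'` is the right translate `h ↦ f(hg)` of `f` -/
def IsTranslate {G : Type*} [Group G] (g : G) (f f' : Ell G) : Prop :=
  ∀ h : G, f' h = f (h * g)

/-- the operator `T` lies in the group von Neumann algebra `L(G)`: it commutes with the right
translations of `ℓ²(G)` -/
def InL {G : Type*} [Group G] (T : Ell G →L[ℂ] Ell G) : Prop :=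
  ∀ (g : G) (f f' : Ell G), IsTranslate g f f' → IsTranslate g (T f) (T f')

/-- `δ` is the vector `δ₁` of `ℓ²(G)` -/
def IsDelta {G : Type*} [Group G] (δ : Ell G) : Prop :=
  δ 1 = 1 ∧ ∀ g : G, g ≠ 1 → δ g = 0

theorem result {G : Type*} [Group G] (U : FreeGroup (Fin 2) → Ell G →L[ℂ] Ell G)
    (hU : IsUnitaryRep U) (hL : ∀ w, InL (U w)) (hfac : GeneratesFactor U)
    (δ : Ell G) (hδ : IsDelta δ) (hdisc : IsDiscrete U δ) :
    ∀ w, w ≠ 1 → ‖(U w δ) 1‖ ≤ 6 / 7 := by
  intro w hw
  obtain ⟨ε, hε, hd⟩ := hdisc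
  obtain ⟨h1, h2, h3⟩ := hU
  have hone : U 1 = 1 := ContinuousLinearMap.ext h1
  have hmul : ∀ a b, U (a * b) = U a * U b := fun a b => ContinuousLinearMap.ext (h2 a b)
  have hss : ∀ a, star (U a) * U a = 1 := fun a =>
    (ContinuousLinearMap.norm_map_iff_adjoint_comp_self (U a)).1 (h3 a)
  have hinv : ∀ a, U a * U a⁻¹ = 1 := fun a => by rw [← hmul, mul_inv_cancel, hone]
  have hst : ∀ a, star (U a) = U a⁻¹ := fun a => by
    calc star (U a) = star (U a) * (U a * U a⁻¹) := by rw [hinv, mul_one]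
      _ = U a⁻¹ := by rw [← mul_assoc, hss, one_mul]
  let φ : FreeGroup (Fin 2) →* ↥(unitary (Ell G →L[ℂ] Ell G)) :=
    { toFun := fun a => ⟨U a, by
        rw [Unitary.mem_iff]
        exact ⟨hss a, by rw [hst, hinv]⟩⟩
      map_one' := Subtype.ext hone
      map_mul' := fun a b => Subtype.ext (hmul a b) }
  refine Helper9.UGap.gap φ (fun w => hL w) ?_ hδ.1 hδ.2 hε hd w hw
  intro T hT hT'
  obtain ⟨c, hc⟩ := hfac T (fun w x => congrArg (fun L : Ell G →L[ℂ] Ell G => L x) (hT w))
    (fun S hS x => congrArg (fun L : Ell G →L[ℂ] Ell G => L x)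
      (hT' S fun w => ContinuousLinearMap.ext (hS w)))
  exact ⟨c, ContinuousLinearMap.ext hc⟩

end Pool.Agent.Results.MP_aa1ab3_an.TraceGap
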