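import Mathlib
import Pool.Agent.Helper25.WC.Main2
import Pool.Agent.Helper66.WC.AMEN

/-!
MP_aa1ab3_an: the closure, in the weak operator topology, of a free group of unitaries of the
hyperfinite factor is never discrete in the two-norm.

Let `G` be a locally finite group (for the group of finitary permutations of `ℕ`, `L(G)` is the
hyperfinite factor of type II₁) and let `U` be an injective homomorphism of the free group on two
generators into the unitary group of `L(G)`. Then the closure of its image in the weak operator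
topology has an accumulation point for the two-norm which is a projection `e`; and elements of the
closure whose trace differs from that of `e` converge to `e`. In particular the trace takes
infinitely many values on each free group of unitaries of the hyperfinite factor (theorem
`infinite_traces`).
-/

namespace Pool.Agent.Results.MP_aa1ab3_an.WeakClosure

open scoped InnerProductSpace
open Filter Topology
open Pool.Agent.Helper25.WC (Cl)

/-- the free group on two generators -/
abbrev F2 := FreeGroup (Fin 2)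

/-- the Hilbert space `ℓ²(G)` -/
abbrev Ell (G : Type*) : Type _ := lp (fun _ : G => ℂ) 2

/-- the bounded operators on `ℓ²(G)` -/
abbrev Op (G : Type*) : Type _ := Ell G →L[ℂ] Ell G

/-- `f'` is the right translate `h ↦ f(hg)` of `f` -/
def IsTranslate {G : Type*} [Group G] (g : G) (f f' : Ell G) : Prop :=
  ∀ h : G, f' h = f (h * g)

/-- the operator `T` lies in the group von Neumann algebra `L(G)`: it commutes with the right
translations of `ℓ²(G)` -/
def InL {G : Type*} [Group G] (T : Op G) : Prop :=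
  ∀ (g : G) (f f' : Ell G), IsTranslate g f f' → IsTranslate g (T f) (T f')

/-- `δ` is the vector `δ₁` of `ℓ²(G)` -/
def IsDelta {G : Type*} [Group G] (δ : Ell G) : Prop :=
  δ 1 = 1 ∧ ∀ g : G, g ≠ 1 → δ g = 0

/-- `G` is locally finite: each finite subset lies in a finite subgroup -/
def LocallyFinite (G : Type*) [Group G] : Prop :=
  ∀ A : Finset G, ∃ Q : Subgroup G, Finite Q ∧ ∀ a ∈ A, a ∈ Q

/-- `U` is a homomorphism of the free group into the unitary group of `L(G)` -/
def IsUnitaryRep {G : Type*} [Group G] (U : F2 → Op G) : Prop :=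
  (∀ x, U 1 x = x) ∧ (∀ a b x, U (a * b) x = U a (U b x)) ∧ (∀ a x, ‖U a x‖ = ‖x‖) ∧
    ∀ a, InL (U a)

/-- `T` lies in the closure of the set of the operators `U(w)` in the weak operator topology -/
def InWeakClosure {G : Type*} (U : F2 → Op G) (T : Op G) : Prop :=
  ∀ (X : Finset (Ell G)) (ε : ℝ), 0 < ε → ∃ w, ∀ x ∈ X, ∀ y ∈ X, ‖⟪x, U w y - T y⟫_ℂ‖ < ε

theorem cl_iff {G : Type*} {φ : FreeGroup (Fin 2) →* ↥(unitary (Op G))} {T : Op G} :
    Cl φ Set.univ T ↔ InWeakClosure (fun w => Pool.Agent.Helper9.UGap.U φ w) T := by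
  constructor
  · intro hT X ε hε
    obtain ⟨u, -, hu⟩ := hT.ultra
    have h1 : ∀ᶠ w in (u : Filter F2), ∀ x ∈ X, ∀ y ∈ X,
        ‖⟪x, Pool.Agent.Helper9.UGap.U φ w y - T y⟫_ℂ‖ < ε := by
      rw [Filter.eventually_all_finset]
      intro x _
      rw [Filter.eventually_all_finset]
      intro y _
      have h2 := (hu x y).sub_const ⟪x, T y⟫_ℂ
      simp only [← inner_sub_right, sub_self, inner_zero_right] at h2
      have h3 := h2.norm
      rw [norm_zero] at h3
      exact h3.eventually_lt_const hε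
    exact h1.exists
  · intro hT
    have h1 : ∀ q : Finset (Ell G) × ℕ, ∃ w, ∀ x ∈ q.1, ∀ y ∈ q.1,
        ‖⟪x, Pool.Agent.Helper9.UGap.U φ w y - T y⟫_ℂ‖ < 1 / ((q.2 : ℝ) + 1) :=
      fun q => hT q.1 _ (by positivity)
    choose w hw using h1
    classical
    refine Pool.Agent.Helper25.WC.Cl.of_tendsto (l := (atTop : Filter (Finset (Ell G) × ℕ))) (k := w)
      (Eventually.of_forall fun _ => Set.mem_univ _) ?_
    intro x y
    rw [tendsto_iff_norm_sub_tendsto_zero, Metric.tendsto_atTop]
    intro ε hε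
    obtain ⟨n, hn⟩ := exists_nat_one_div_lt hε
    refine ⟨({x, y}, n), fun q hq => ?_⟩
    have hx : x ∈ q.1 := hq.1 (by simp)
    have hy : y ∈ q.1 := hq.1 (by simp)
    have h2 := hw q x hx y hy
    rw [Real.dist_eq, sub_zero, abs_of_nonneg (norm_nonneg _), ← inner_sub_right]
    refine h2.trans_le (le_trans ?_ hn.le)
    apply one_div_le_one_div_of_le (by positivity)
    have : (n : ℝ) ≤ q.2 := by exact_mod_cast hq.2
    linarith

/-- `e` is an orthogonal projection -/
def IsProjection {G : Type*} (e : Op G) : Prop :=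
  (∀ x, e (e x) = e x) ∧ ∀ x y, ⟪e x, y⟫_ℂ = ⟪x, e y⟫_ℂ

/-- the trace of `L(G)`, `δ` being the vector `δ₁` -/
noncomputable def tr {G : Type*} (δ : Ell G) (T : Op G) : ℂ := ⟪δ, T δ⟫_ℂ

/-- **Theorem.** Let `G` be a locally finite group and `U` an injective homomorphism of the free
group on two generators into the unitary group of `L(G)`. Some projection `e` in the closure `C`
of its image in the weak operator topology is a limit, for the two-norm `‖T‖₂ = ‖T δ₁‖`, of
elements of `C` whose trace is not that of `e`. -/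
theorem result {G : Type*} [Group G] (hG : LocallyFinite G) (U : F2 → Op G)
    (hU : IsUnitaryRep U) (hinj : Function.Injective U) (δ : Ell G) (hδ : IsDelta δ) :
    ∃ e : Op G, InWeakClosure U e ∧ IsProjection e ∧
      ∀ ε : ℝ, 0 < ε → ∃ S : Op G, InWeakClosure U S ∧ tr δ S ≠ tr δ e ∧ ‖S δ - e δ‖ < ε := by
  classical
  obtain ⟨h1, h2, h3, hL⟩ := hU
  have hone : U 1 = 1 := ContinuousLinearMap.ext h1
  have hmul : ∀ a b, U (a * b) = U a * U b := fun a b => ContinuousLinearMap.ext (h2 a b)
  have hss : ∀ a, star (U a) * U a = 1 := fun a =>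
    (ContinuousLinearMap.norm_map_iff_adjoint_comp_self (U a)).1 (h3 a)
  have hinv : ∀ a, U a * U a⁻¹ = 1 := fun a => by rw [← hmul, mul_inv_cancel, hone]
  have hst : ∀ a, star (U a) = U a⁻¹ := fun a => by
    calc star (U a) = star (U a) * (U a * U a⁻¹) := by rw [hinv, mul_one]
      _ = U a⁻¹ := by rw [← mul_assoc, hss, one_mul]
  obtain ⟨φ, hφ⟩ : ∃ φ : FreeGroup (Fin 2) →* ↥(unitary (Op G)),
      ∀ w, Pool.Agent.Helper9.UGap.U φ w = U w :=
    ⟨{ toFun := fun a => ⟨U a, by
        rw [Unitary.mem_iff]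
        exact ⟨hss a, by rw [hst, hinv]⟩⟩
       map_one' := Subtype.ext hone
       map_mul' := fun a b => Subtype.ext (hmul a b) }, fun w => rfl⟩
  have ed : δ = Helper9.UGap.dl := by
    ext g
    unfold Helper9.UGap.dl
    rw [lp.single_apply]
    by_cases hg : g = 1
    · subst hg; rw [hδ.1]; simp
    · rw [hδ.2 g hg, Pi.single_eq_of_ne hg]
  have hUφ : (fun w => Pool.Agent.Helper9.UGap.U φ w) = U := funext hφ
  have hLφ : ∀ w, Pool.Agent.Helper9.UGap.InL (Pool.Agent.Helper9.UGap.U φ w) := by
    intro w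
    rw [hφ w]
    exact hL w
  have hiφ : ∀ w, Pool.Agent.Helper9.UGap.U φ w = 1 → w = 1 := by
    intro w hw
    rw [hφ w] at hw
    exact hinj (hw.trans hone.symm)
  obtain ⟨e, he, hs, hee, h⟩ :=
    Pool.Agent.Helper25.WC.Pr.main' Pool.Agent.Helper66.WC.amen φ hG hLφ hiφ
  have hcl : ∀ T, Cl φ Set.univ T → InWeakClosure U T := by
    intro T hT
    rw [← hUφ]
    exact cl_iff.1 hT
  refine ⟨e, hcl e he, ⟨fun x => ?_, fun x y => ?_⟩, fun ε hε => ?_⟩
  · exact congrArg (fun T : Op G => T x) hee
  · have h4 : ⟪e x, y⟫_ℂ = ⟪x, (star e) y⟫_ℂ :=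
      (ContinuousLinearMap.adjoint_inner_right e x y).symm
    rw [h4, hs]
  · obtain ⟨S, hS, hne, hlt⟩ := h ε hε
    unfold tr
    rw [ed]
    exact ⟨S, hcl S hS, hne, hlt⟩

/-- **Corollary.** The trace takes infinitely many values on a free group of unitaries of `L(G)`,
`G` locally finite. -/
theorem infinite_traces {G : Type*} [Group G] (hG : LocallyFinite G) (U : F2 → Op G)
    (hU : IsUnitaryRep U) (hinj : Function.Injective U) (δ : Ell G) (hδ : IsDelta δ) :
    (Set.range fun w => tr δ (U w)).Infinite := by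
  intro hfin
  obtain ⟨e, -, -, h⟩ := result hG U hU hinj δ hδ
  have hV : ∀ T, InWeakClosure U T → tr δ T ∈ Set.range fun w => tr δ (U w) := by
    intro T hT
    have h1 : tr δ T ∈ closure (Set.range fun w => tr δ (U w)) := by
      rw [Metric.mem_closure_range_iff]
      intro ε hε
      obtain ⟨w, hw⟩ := hT {δ} ε hε
      refine ⟨w, ?_⟩
      have h2 := hw δ (by simp) δ (by simp)
      rw [inner_sub_right] at h2
      rw [dist_comm, dist_eq_norm]
      exact h2
    rwa [hfin.isClosed.closure_eq] at h1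
  have hc : IsClosed ((Set.range fun w => tr δ (U w)) \ {tr δ e}) :=
    (hfin.subset Set.diff_subset).isClosed
  obtain ⟨r, hr, hb⟩ := Metric.isOpen_iff.1 hc.isOpen_compl (tr δ e) (by simp)
  obtain ⟨S, hS, hne, hlt⟩ := h (r / (‖δ‖ + 1)) (by positivity)
  have h1 : ‖tr δ S - tr δ e‖ < r := by
    unfold tr
    rw [← inner_sub_right]
    calc ‖⟪δ, S δ - e δ⟫_ℂ‖ ≤ ‖δ‖ * ‖S δ - e δ‖ := norm_inner_le_norm _ _
      _ ≤ (‖δ‖ + 1) * ‖S δ - e δ‖ := by gcongr; linarith
      _ < (‖δ‖ + 1) * (r / (‖δ‖ + 1)) := by gcongr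
      _ = r := by field_simp
  exact hb (by rw [Metric.mem_ball, dist_eq_norm]; exact h1) ⟨hV S hS, hne⟩

end Pool.Agent.Results.MP_aa1ab3_an.WeakClosure
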